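import Pool.Agent.BEC.Stmts

/-!
# Squad BEC (MP_be01ff_an), row LDF: derivatives in `L²`
-/

set_option autoImplicit false

namespace Pool.Agent.BEC.H49

open Set Filter Topology MeasureTheory InnerProductSpace Laplacian
open scoped InnerProductSpace ENNReal
open Pool.Agent.BE01F Pool.Agent.BEC

variable {d : ℕ}

/-- uniform continuity in time on a compact set -/
theorem ldf_unif {F : Type} [NormedAddCommGroup F] (K : Set (E d)) (U : Set (ℝ × E d))
    (w : ℝ × E d → F) (hK : IsCompact K) (hU : {z : ℝ × E d | 0 ≤ z.1 ∧ z.2 ∈ K} ⊆ U)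
    (hw : ContinuousOn w U) (t : ℝ) (ht : 0 ≤ t) (ε : ℝ) (hε : 0 < ε) :
    ∃ δ : ℝ, 0 < δ ∧ ∀ s : ℝ, 0 ≤ s → |s - t| < δ → ∀ x ∈ K, ‖w (s, x) - w (t, x)‖ ≤ ε := by
  have hc : IsCompact (Icc (0 : ℝ) (t + 1) ×ˢ K) := isCompact_Icc.prod hK
  have hcs : Icc (0 : ℝ) (t + 1) ×ˢ K ⊆ U := fun z hz => hU ⟨hz.1.1, hz.2⟩
  have hu := hc.uniformContinuousOn_of_continuous (hw.mono hcs)
  rw [Metric.uniformContinuousOn_iff] at hu
  obtain ⟨δ, hδ, h⟩ := hu ε hε
  refine ⟨min δ 1, lt_min hδ one_pos, ?_⟩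
  intro s hs hst x hx
  have h1 : |s - t| < δ := lt_of_lt_of_le hst (min_le_left _ _)
  have h2 : |s - t| < 1 := lt_of_lt_of_le hst (min_le_right _ _)
  have h3 := abs_lt.1 h2
  have h4 := h (s, x) ⟨⟨hs, by linarith [h3.2]⟩, hx⟩ (t, x) ⟨⟨ht, by linarith⟩, hx⟩ (by
    rw [Prod.dist_eq, dist_self, max_eq_left dist_nonneg, Real.dist_eq]
    exact h1)
  rw [dist_eq_norm] at h4
  exact h4.le

/-- uniform convergence gives convergence in `L²` -/
theorem ldf_tend {F : Type} [NormedAddCommGroup F] (Ω : Set (E d)) (hΩ : IsOpen Ω)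
    (hb : Bornology.IsBounded Ω) (f : ℝ → E d → F) (l : Filter ℝ)
    (h : ∀ ε : ℝ, 0 < ε → ∀ᶠ s in l, ∀ x ∈ Ω, ‖f s x‖ ≤ ε) :
    Tendsto (fun s => eLpNorm (f s) 2 (volume.restrict Ω)) l (𝓝 0) := by
  have hfin : volume Ω < ⊤ := hb.measure_lt_top
  obtain ⟨M, hM⟩ : ∃ M : ℝ≥0∞, M = (volume.restrict Ω) univ ^ ((2 : ℝ≥0∞).toReal)⁻¹ := ⟨_, rfl⟩
  have hMtop : M ≠ ⊤ := by
    rw [hM]
    apply ENNReal.rpow_ne_top_of_nonneg
    · positivity
    · rw [Measure.restrict_apply_univ]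
      exact hfin.ne
  rw [ENNReal.tendsto_nhds_zero]
  intro ε hε
  by_cases htop : ε = ⊤
  · exact Filter.Eventually.of_forall fun s => by rw [htop]; exact le_top
  have hε' : 0 < ε.toReal := ENNReal.toReal_pos hε.ne' htop
  have hM1 : 0 < M.toReal + 1 := by
    have := ENNReal.toReal_nonneg (a := M)
    linarith
  filter_upwards [h (ε.toReal / (M.toReal + 1)) (div_pos hε' hM1)] with s hs
  have h1 : ∀ᵐ x ∂(volume.restrict Ω), ‖f s x‖ ≤ ε.toReal / (M.toReal + 1) := by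
    filter_upwards [ae_restrict_mem hΩ.measurableSet] with x hx
    exact hs x hx
  have h2 := eLpNorm_le_of_ae_bound (p := 2) h1
  refine h2.trans ?_
  rw [← hM, ← ENNReal.ofReal_toReal hMtop, ← ENNReal.ofReal_mul ENNReal.toReal_nonneg]
  conv_rhs => rw [← ENNReal.ofReal_toReal htop]
  apply ENNReal.ofReal_le_ofReal
  rw [ENNReal.toReal_ofReal ENNReal.toReal_nonneg, mul_div_assoc', div_le_iff₀ hM1]
  nlinarith [ENNReal.toReal_nonneg (a := M)]

/-- the derivative in `L²` -/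
theorem ldf_der (Ω : Set (E d)) (U : Set (ℝ × E d)) (g g' : ℝ → E d → ℝ) (hΩ : IsOpen Ω)
    (hb : Bornology.IsBounded Ω) (hU : {z : ℝ × E d | 0 ≤ z.1 ∧ z.2 ∈ closure Ω} ⊆ U)
    (hg : ∀ z ∈ U, HasDerivAt (fun s => g s z.2) (g' z.1 z.2) z.1)
    (hg' : ContinuousOn (fun z : ℝ × E d => g' z.1 z.2) U) (t : ℝ) (ht : 0 ≤ t) :
    Der Ω g (g' t) t := by
  have hK : IsCompact (closure Ω) := hb.isCompact_closure
  refine ldf_tend Ω hΩ hb (fun s x => (s - t)⁻¹ * (g s x - g t x) - g' t x) _ ?_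
  intro ε hε
  obtain ⟨δ, hδ, h⟩ := ldf_unif (closure Ω) U (fun z : ℝ × E d => g' z.1 z.2) hK hU hg' t ht ε hε
  filter_upwards [self_mem_nhdsWithin, mem_nhdsWithin_of_mem_nhds (Metric.ball_mem_nhds t hδ)]
    with s hs1 hs2 x hx
  have hxK : x ∈ closure Ω := subset_closure hx
  have hs0 : 0 ≤ s := hs1.1
  have hst : s ≠ t := fun h => hs1.2 h
  have hsd : |s - t| < δ := by
    rw [Metric.mem_ball, Real.dist_eq] at hs2
    exact hs2
  have hconv : Convex ℝ (Ici (0 : ℝ) ∩ Metric.ball t δ) := (convex_Ici 0).inter (convex_ball t δ)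
  have hder : ∀ τ ∈ Ici (0 : ℝ) ∩ Metric.ball t δ, HasDerivWithinAt
      (fun τ => g τ x - τ * g' t x) (g' τ x - g' t x) (Ici (0 : ℝ) ∩ Metric.ball t δ) τ := by
    intro τ hτ
    have h1 := hg (τ, x) (hU ⟨hτ.1, hxK⟩)
    have h2 : HasDerivAt (fun τ : ℝ => τ * g' t x) (1 * g' t x) τ := (hasDerivAt_id τ).mul_const _
    rw [one_mul] at h2
    exact (h1.sub h2).hasDerivWithinAt
  have hbd : ∀ τ ∈ Ici (0 : ℝ) ∩ Metric.ball t δ, ‖g' τ x - g' t x‖ ≤ ε := by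
    intro τ hτ
    have h1 := hτ.2
    rw [Metric.mem_ball, Real.dist_eq] at h1
    exact h τ hτ.1 h1 x hxK
  have hmv := hconv.norm_image_sub_le_of_norm_hasDerivWithin_le hder hbd
    (⟨ht, Metric.mem_ball_self hδ⟩ : t ∈ Ici (0 : ℝ) ∩ Metric.ball t δ)
    (⟨hs0, hs2⟩ : s ∈ Ici (0 : ℝ) ∩ Metric.ball t δ)
  have hne : s - t ≠ 0 := sub_ne_zero.2 hst
  have e1 : (s - t)⁻¹ * (g s x - g t x) - g' t x =
      (s - t)⁻¹ * ((g s x - s * g' t x) - (g t x - t * g' t x)) := by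
    field_simp
    ring
  rw [e1, norm_mul, norm_inv]
  have h3 : 0 < ‖s - t‖ := norm_pos_iff.2 hne
  rw [inv_mul_le_iff₀ h3]
  exact hmv.trans (le_of_eq (mul_comm _ _))

/-- Row LDF. -/
theorem ldf (hCSE : CseStmt) : LdfStmt := by
  intro d Ω u hΩ hb hC t ht
  obtain ⟨U, hU, hsub, hCD⟩ := hC
  obtain ⟨-, hvt, hwt, hgr, -, hder, -⟩ := hCSE d U u hU hCD
  have hK : IsCompact (closure Ω) := hb.isCompact_closure
  have hsl : ∀ {F : Type} [NormedAddCommGroup F] (w : ℝ × E d → F), ContinuousOn w U →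
      ContinuousOn (fun x => w (t, x)) (closure Ω) := by
    intro F _ w hw
    exact hw.comp (by fun_prop) fun x hx => hsub ⟨ht, hx⟩
  have hfin : IsFiniteMeasure (volume.restrict Ω) :=
    ⟨by rw [Measure.restrict_apply_univ]; exact hb.measure_lt_top⟩
  have hbd : ∀ (w : ℝ × E d → ℝ), ContinuousOn w U → ∃ C : ℝ,
      ∀ᵐ x ∂(volume.restrict Ω), ‖w (t, x)‖ ≤ C := by
    intro w hw
    obtain ⟨C, hC⟩ := hK.exists_bound_of_continuousOn (hsl w hw)
    refine ⟨C, ?_⟩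
    filter_upwards [ae_restrict_mem hΩ.measurableSet] with x hx
    exact hC x (subset_closure hx)
  have hct : ∀ {F : Type} [NormedAddCommGroup F] (w : ℝ × E d → F), ContinuousOn w U →
      Tendsto (fun s => eLpNorm (fun x => w (s, x) - w (t, x)) 2 (volume.restrict Ω))
        (𝓝[Ici 0] t) (𝓝 0) := by
    intro F _ w hw
    refine ldf_tend Ω hΩ hb (fun s x => w (s, x) - w (t, x)) _ ?_
    intro ε hε
    obtain ⟨δ, hδ, h⟩ := ldf_unif (closure Ω) U w hK hsub hw t ht ε hε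
    filter_upwards [self_mem_nhdsWithin, mem_nhdsWithin_of_mem_nhds (Metric.ball_mem_nhds t hδ)]
      with s hs1 hs2 x hx
    rw [Metric.mem_ball, Real.dist_eq] at hs2
    exact h s hs1 hs2 x (subset_closure hx)
  refine ⟨ldf_der Ω U u (vt u) hΩ hb hsub (fun z hz => (hder z hz).1) hvt t ht,
    ldf_der Ω U (vt u) (wt u) hΩ hb hsub (fun z hz => (hder z hz).2) hwt t ht,
    hct (fun z => wt u z.1 z.2) hwt, ?_, ?_, hct (fun z => gradient (u z.1) z.2) hgr⟩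
  · obtain ⟨C, hC⟩ := hbd (fun z => wt u z.1 z.2) hwt
    show MemLp (wt u t) 2 (volume.restrict Ω)
    refine MemLp.of_bound ?_ C hC
    exact ((hsl (fun z => wt u z.1 z.2) hwt).mono subset_closure).aestronglyMeasurable
      hΩ.measurableSet
  · obtain ⟨C, hC⟩ := hbd (fun z => vt u z.1 z.2) hvt
    exact ⟨C, hC⟩

end Pool.Agent.BEC.H49
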