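import Pool.Agent.BEC.Stmts
import Pool.Agent.Helper22_BEC.Shell

/-!
# Squad BEC (MP_be01ff_an), row SHR: the shells of `ℝ³`, every `α > 0`
-/

set_option autoImplicit false

namespace Pool.Agent.BEC.H49

open Set Filter Topology MeasureTheory InnerProductSpace Laplacian
open scoped InnerProductSpace ENNReal
open Pool.Agent.BE01F Pool.Agent.BEC

theorem norm_grad {d : ℕ} (f : E d → ℝ) (x : E d) : ‖gradient f x‖ = ‖fderiv ℝ f x‖ := by
  unfold gradient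
  rw [LinearIsometryEquiv.norm_map]

/-- Row SHR. -/
theorem shr (hHZC : HzcStmt) (hSHD : ShdStmt) (hCSE : CseStmt) (hLDF : LdfStmt)
    (hWEK : WekStmt) : ShrStmt := by
  intro r R a α hr hrR ha hα
  obtain ⟨⟨u, hcl, hrad, hE0⟩, hall⟩ := Pool.Agent.BEC.Shell.result r R a α hr hrR ha hα
  obtain ⟨c, C, hc, hcC, hrate⟩ := hall u hcl hrad hE0
  obtain ⟨U, hU, hsub, hCD⟩ := hcl.smooth
  obtain ⟨hsec, -, -, -, -, -, hzero⟩ := hCSE 3 U u hU hCD
  have hV : ∀ t : ℝ, 0 ≤ t → {x : E 3 | r ≤ ‖x‖ ∧ ‖x‖ ≤ R} ⊆ {x : E 3 | (t, x) ∈ U} :=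
    fun t ht x hx => hsub ⟨ht, hx.1, hx.2⟩
  have hu1 : ∀ t : ℝ, ContDiffOn ℝ 1 (u t) {x : E 3 | (t, x) ∈ U} :=
    fun t => (hsec t).2.1.of_le (by norm_num)
  obtain ⟨hO, hB, hclos, hδ, hpos, hcpt, -⟩ := hSHD 3 r R {x : E 3 | ((0 : ℝ), x) ∈ U} (u 0) hr hrR
    (hsec 0).1 (hV 0 le_rfl) (hu1 0) (fun x hx => hcl.inner 0 x le_rfl hx)
    (fun x hx => hcl.outer 0 x le_rfl hx)
  have key : ∀ t : ℝ, 0 ≤ t → ∀ f : E 3 → ℝ, ContDiffOn ℝ 1 f {x : E 3 | (t, x) ∈ U} →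
      (∀ x : E 3, ‖x‖ = r → f x = 0) → (∀ x : E 3, ‖x‖ = R → f x = 0) →
      H10 (Shl 3 r R) f (gradient f) := by
    intro t ht f hf hin hout
    obtain ⟨-, -, -, -, -, -, C0, hC0, hbd⟩ := hSHD 3 r R {x : E 3 | (t, x) ∈ U} f hr hrR
      (hsec t).1 (hV t ht) hf hin hout
    exact hHZC 3 (Shl 3 r R) {x : E 3 | (t, x) ∈ U} _ f C0 hO hB hδ hpos hcpt (hsec t).1
      (hclos.trans (hV t ht)) hf hC0 hbd
  have hC2 : C2 (Shl 3 r R) u :=
    ⟨U, hU, fun z hz => hsub ⟨hz.1, (hclos hz.2).1, (hclos hz.2).2⟩, hCD⟩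
  have hldf := hLDF 3 (Shl 3 r R) u hO hB hC2
  have hE : ∀ t : ℝ, energy (Shl 3 r R) (vt u) (fun t x => gradient (u t) x) t =
      Pool.Agent.BEC.Shell.energy r R u t := by
    intro t
    unfold energy intg vol Pool.Agent.BEC.Shell.energy Shl vt
    simp only [norm_grad]
  refine ⟨u, vt u, wt u, fun t x => gradient (u t) x, ?_, c, C, hc, hcC, ?_⟩
  · refine ⟨?_, ?_, ?_, ?_, ?_, ?_, ?_, ?_, ?_⟩
    · intro t ht
      exact key t ht (u t) (hu1 t) (fun x hx => hcl.inner t x ht hx)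
        (fun x hx => hcl.outer t x ht hx)
    · intro t ht
      refine ⟨gradient (vt u t), key t ht (vt u t) (hsec t).2.2 ?_ ?_⟩
      · intro x hx
        exact hzero x (fun s hs => hcl.inner s x hs hx) t ht (hsub ⟨ht, hx.ge, hx.trans_le hrR.le⟩)
      · intro x hx
        exact hzero x (fun s hs => hcl.outer s x hs hx) t ht (hsub ⟨ht, hrR.le.trans hx.ge, hx.le⟩)
    · exact fun t ht => (hldf t ht).2.2.2.1
    · exact fun t ht => (hldf t ht).1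
    · exact fun t ht => (hldf t ht).2.1
    · exact fun t ht => (hldf t ht).2.2.1
    · exact fun t ht => (hldf t ht).2.2.2.2.2
    · exact fun t ht => (hldf t ht).2.2.2.2.1
    · exact fun t ht => hWEK 3 (Shl 3 r R) u a α hO hB hC2 hα
        (fun s x hs hx => hcl.pde s x hs hx.1 hx.2) t ht
  · intro t ht
    rw [hE t]
    exact hrate t ht

end Pool.Agent.BEC.H49
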